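import Pool.Agent.Helper71.PY.Goals

/-!
Packet PY-LG1: the new submodule `P₁` is Lagrangian.
-/

set_option autoImplicit false

namespace Pool.Agent.Helper55.PY

open Pool.Agent.Helper71.PY

theorem lg1 : G_LG1 := by
  intro R _ _ x y hx0 N _ _ B hsym P hP z p1 nx ny hS v
  have memP : ∀ w : N, w ∈ P1 B P z nx ny ↔
      (∀ p : P, z p = 0 → B w p = 0) ∧ B w nx = 0 ∧ B w ny = 0 := fun w => Iff.rfl
  constructor
  · intro hv w' hw'
    obtain ⟨hv0, hvx, hvy⟩ := (memP v).1 hv
    obtain ⟨hw0, hwx, hwy⟩ := (memP w').1 hw'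
    have key : ∀ p : P, B v p = z p * B v p1 := by
      intro p
      have h1 : z (p - z p • p1) = 0 := by
        rw [map_sub, map_smul, hS.one, smul_eq_mul, mul_one, sub_self]
      have h2 := hv0 _ h1
      have h3 : ((p - z p • p1 : P) : N) = (p : N) - z p • (p1 : N) := rfl
      rw [h3, map_sub, map_smul, smul_eq_mul, sub_eq_zero] at h2
      exact h2
    have hu : x • v - B v p1 • nx ∈ P := by
      rw [hP]
      intro p hp
      have e1 := key ⟨p, hp⟩
      have e2 := hS.hx ⟨p, hp⟩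
      have e1' : B v p = z ⟨p, hp⟩ * B v p1 := e1
      have e2' : B nx p = x * z ⟨p, hp⟩ := e2
      rw [map_sub, map_smul, map_smul, LinearMap.sub_apply, LinearMap.smul_apply,
        LinearMap.smul_apply, smul_eq_mul, smul_eq_mul, e1', e2']
      ring
    have hz : z ⟨_, hu⟩ = 0 := by
      have e := hS.hx ⟨_, hu⟩
      have e' : B nx (x • v - B v p1 • nx) = x * z ⟨_, hu⟩ := e
      rw [map_sub, map_smul, map_smul, smul_eq_mul, smul_eq_mul, hS.xx, hsym nx v, hvx,
        mul_zero, mul_zero, sub_zero] at e'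
      exact (mul_eq_zero.1 e'.symm).resolve_left hx0
    have h4 : B w' (x • v - B v p1 • nx) = 0 := hw0 ⟨_, hu⟩ hz
    rw [map_sub, map_smul, map_smul, smul_eq_mul, smul_eq_mul, hwx, mul_zero, sub_zero] at h4
    have h5 := (mul_eq_zero.1 h4).resolve_left hx0
    rw [hsym v w']
    exact h5
  · intro hv
    rw [memP]
    refine ⟨fun p hp => hv _ ?_, hv _ ?_, hv _ ?_⟩
    · rw [memP]
      refine ⟨fun q _ => (hP (p : N)).1 p.2 _ q.2, ?_, ?_⟩
      · rw [hsym, hS.hx, hp, mul_zero]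
      · rw [hsym, hS.hy, hp, mul_zero]
    · rw [memP]
      exact ⟨fun q hq => by rw [hS.hx, hq, mul_zero], hS.xx, hS.xy⟩
    · rw [memP]
      exact ⟨fun q hq => by rw [hS.hy, hq, mul_zero], by rw [hsym]; exact hS.xy, hS.yy⟩

end Pool.Agent.Helper55.PY
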